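import Pool.Agent.H.MP_5d6127_an.A

set_option autoImplicit false

open Set Filter Metric

namespace Pool.Agent.Results.MP_d9fe16_an.NotExtreme

/-- initial maps of normal Loewner chains on the bidisc (unit ball of the max norm) -/
def InS0 (f : ℂ × ℂ → ℂ × ℂ) : Prop :=
  ∃ F : ℝ → ℂ × ℂ → ℂ × ℂ, (∀ z ∈ ball (0 : ℂ × ℂ) 1, F 0 z = f z) ∧
    (∀ t : ℝ, 0 ≤ t → DifferentiableOn ℂ (F t) (ball 0 1) ∧ InjOn (F t) (ball 0 1) ∧ F t 0 = 0 ∧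
      fderiv ℂ (F t) 0 = (Real.exp t : ℂ) • ContinuousLinearMap.id ℂ (ℂ × ℂ)) ∧
    (∀ s t : ℝ, 0 ≤ s → s ≤ t → F s '' ball 0 1 ⊆ F t '' ball 0 1) ∧
    ∀ u : ℕ → ℝ, (∀ n, 0 ≤ u n) → ∃ φ : ℕ → ℕ, StrictMono φ ∧ ∃ g : ℂ × ℂ → ℂ × ℂ,
      TendstoLocallyUniformlyOn (fun n z => (Real.exp (-u (φ n)) : ℂ) • F (u (φ n)) z) g atTop
        (ball 0 1)

theorem result : ∀ M : ℝ, 1 < M → ∃ g h : ℂ × ℂ → ℂ × ℂ,
    (InS0 g ∧ ∀ z ∈ ball (0 : ℂ × ℂ) 1, ‖g z‖ ≤ M) ∧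
    (InS0 h ∧ ∀ z ∈ ball (0 : ℂ × ℂ) 1, ‖h z‖ ≤ M) ∧
    (∃ z ∈ ball (0 : ℂ × ℂ) 1, g z ≠ h z) ∧
    ∀ z : ℂ × ℂ, (z.1 + (1 - 1 / (M : ℂ)) * z.2 ^ 2, z.2) = (1 / 2 : ℂ) • g z + (1 / 2 : ℂ) • h z := by
  intro M hM
  obtain ⟨ε, e0, e1, e2, e3⟩ := H.MP_5d6127_an.eps M hM
  refine ⟨H.MP_5d6127_an.sh (1 - 1 / M + ε), H.MP_5d6127_an.sh (1 - 1 / M - ε),
    ⟨H.MP_5d6127_an.chain _ (by linarith) e2, H.MP_5d6127_an.bound _ _ (by linarith) e3⟩,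
    ⟨H.MP_5d6127_an.chain _ (by linarith) (by linarith),
      H.MP_5d6127_an.bound _ _ (by linarith) (by linarith)⟩,
    ⟨(0, 1 / 2), (H.MP_5d6127_an.mem_iff _).2 ⟨by simp, by simp; norm_num⟩, fun h => ?_⟩,
    fun z => ?_⟩
  · have h1 := congrArg Prod.fst h
    simp only [H.MP_5d6127_an.sh] at h1
    push_cast at h1
    have h2 : (ε : ℂ) = 0 := by linear_combination 2 * h1
    exact e0.ne' (by exact_mod_cast h2)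
  · simp only [H.MP_5d6127_an.sh, Prod.smul_mk, smul_eq_mul, Prod.mk_add_mk, Prod.mk.injEq]
    push_cast
    constructor <;> ring

end Pool.Agent.Results.MP_d9fe16_an.NotExtreme
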